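import Pool.Agent.H73.SMD.Stmts

/-! # Board SMD, row HHH: the component -/

set_option autoImplicit false

open Set Filter Topology MeasureTheory Metric

namespace Pool.SMD

open Pool.PHS Pool.LPC

theorem HHH_thm (hI : IDNStmt) : HHHStmt := by
  intro n D O h y₀ hD hh hO hy₀ hOD hOh
  have hW : IsOpen (D ∩ h ⁻¹' D) := hh.continuousOn.isOpen_inter_preimage hD hD
  have hyW : y₀ ∈ D ∩ h ⁻¹' D := ⟨hOD hy₀, (hOh y₀ hy₀).1⟩
  have hCo : IsOpen (connectedComponentIn (D ∩ h ⁻¹' D) y₀) := hW.connectedComponentIn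
  have hCs : connectedComponentIn (D ∩ h ⁻¹' D) y₀ ⊆ D ∩ h ⁻¹' D :=
    connectedComponentIn_subset _ _
  have hyC : y₀ ∈ connectedComponentIn (D ∩ h ⁻¹' D) y₀ := mem_connectedComponentIn hyW
  refine ⟨connectedComponentIn (D ∩ h ⁻¹' D) y₀, hCo, ⟨y₀, hyC⟩, fun z hz => (hCs hz).1, ?_, ?_⟩
  · intro z hz
    refine ⟨(hCs hz).2, ?_⟩
    funext i
    have h1 : DifferentiableOn ℂ h (connectedComponentIn (D ∩ h ⁻¹' D) y₀) :=
      hh.mono fun z hz => (hCs hz).1
    have h2 : DifferentiableOn ℂ (fun z => h (h z)) (connectedComponentIn (D ∩ h ⁻¹' D) y₀) :=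
      hh.comp h1 fun z hz => (hCs hz).2
    have h3 := hI n (fun z => h (h z) i) (fun z => h z i)
      (connectedComponentIn (D ∩ h ⁻¹' D) y₀) (O ∩ connectedComponentIn (D ∩ h ⁻¹' D) y₀)
      hCo isPreconnected_connectedComponentIn (differentiableOn_pi.1 h2 i)
      (differentiableOn_pi.1 h1 i) (hO.inter hCo) inter_subset_right ⟨y₀, hy₀, hyC⟩
      (fun y hy => congrFun (hOh y hy.1).2 i)
    exact h3 hz
  · intro z hzD hzc hzn hhz
    refine hzn ?_
    have h4 : IsPreconnected (insert z (connectedComponentIn (D ∩ h ⁻¹' D) y₀)) :=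
      isPreconnected_connectedComponentIn.subset_closure (subset_insert _ _)
        (insert_subset hzc subset_closure)
    have h5 : insert z (connectedComponentIn (D ∩ h ⁻¹' D) y₀) ⊆ D ∩ h ⁻¹' D :=
      insert_subset ⟨hzD, hhz⟩ hCs
    exact h4.subset_connectedComponentIn (mem_insert_of_mem _ hyC) h5 (mem_insert _ _)

end Pool.SMD
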